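import Pool.Agent.H50.NC.Targets

/-!
# Two rungs of an even prism in a side

Row DC of the board `nck_modules`.
-/

set_option autoImplicit false

namespace Pool.Agent.H74.NCK

open Pool.Agent.H48.ER Pool.Agent.H50.NC

variable {V : Type} {G : SimpleGraph V}

/-- the union of two connected sets joined by an edge -/
theorem cn_union {A B : Set V} (hA : Cn G A) (hB : Cn G B) {u v : V} (hu : u ∈ A) (hv : v ∈ B)
    (h : G.Adj u v) : Cn G (A ∪ B) := by
  intro Y hY hne hcl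
  have key : ∀ (C : Set V), Cn G C → C ⊆ A ∪ B → (Y ∩ C).Nonempty → C ⊆ Y := by
    intro C hC hCs hn
    have h1 : Y ∩ C = C := by
      refine hC _ Set.inter_subset_right hn ?_
      intro p hp q hq hpq
      exact ⟨hcl p hp.1 q (hCs hq) hpq, hq⟩
    intro c hc
    rw [← h1] at hc
    exact hc.1
  have kA := key A hA Set.subset_union_left
  have kB := key B hB Set.subset_union_right
  have huY : A ⊆ Y → B ⊆ Y := fun hAY => kB ⟨v, hcl u (hAY hu) v (Or.inr hv) h, hv⟩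
  have hvY : B ⊆ Y → A ⊆ Y := fun hBY => kA ⟨u, hcl v (hBY hv) u (Or.inl hu) h.symm, hu⟩
  obtain ⟨c, hc⟩ := hne
  refine Set.Subset.antisymm hY ?_
  rcases hY hc with hcA | hcB
  · have h1 := kA ⟨c, hc, hcA⟩
    exact Set.union_subset h1 (huY h1)
  · have h1 := kB ⟨c, hc, hcB⟩
    exact Set.union_subset (hvY h1) h1

/-- the end of a path outside of `S` with all other vertices in `S` is a neighbour of `S` -/
theorem nb_of_ip {S R : Set V} {p : ℕ} {a t : V} (h : IP G p a t R) (hp : 1 ≤ p) (ht : t ∉ S)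
    (hR : ∀ v ∈ R, v = t ∨ v ∈ S) : Nb G S t := by
  obtain ⟨q, rfl⟩ : ∃ q, p = q + 1 := ⟨p - 1, by omega⟩
  obtain ⟨x', h1, h2, _, _⟩ := h.rev.tail
  refine ⟨ht, x', ?_, h1⟩
  rcases hR x' h2 with e | e
  · exact absurd e.symm h1.ne
  · exact e

/-- the corner is not in the side -/
theorem a_not_mem {a b : Fin 3 → V} {n : Fin 3 → ℕ} {P : Fin 3 → Set V} {i : Fin 3} {T : Set V}
    (h : Sd G a b n P i T) : a i ∉ T := by
  intro hm
  obtain ⟨j, hj⟩ : ∃ j : Fin 3, j ≠ i := exists_ne i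
  exact (h.ne _ hm (a j) ⟨j, hj, h.pr.1.a_mem j⟩).2 (h.pr.1.a_adj hj.symm)

/-- the part of the side `i` sees only the rung `i` -/
theorem sees {a b : Fin 3 → V} {n : Fin 3 → ℕ} {P : Fin 3 → Set V} {i : Fin 3} {T D : Set V}
    (h : Sd G a b n P i T) (hD : D ⊆ T) {d g : V} {j : Fin 3} (hd : d ∈ D) (hg : g ∈ P j)
    (hdg : G.Adj d g) : j = i := by
  by_contra hj
  exact (h.ne d (hD hd) g ⟨j, hj, hg⟩).2 hdg

/-- the part of the side `i` outside of the rung `i` is outside of the prism -/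
theorem out {a b : Fin 3 → V} {n : Fin 3 → ℕ} {P : Fin 3 → Set V} {i : Fin 3} {T D : Set V}
    (h : Sd G a b n P i T) (hD : D ⊆ T) (hP : ∀ d ∈ D, d ∉ P i) {d : V} (hd : d ∈ D) :
    d ∉ ver P := by
  rintro ⟨j, hj⟩
  by_cases e : j = i
  · exact hP d hd (e ▸ hj)
  · exact (h.ne d (hD hd) d ⟨j, e, hj⟩).1 rfl

theorem pf_DC (hLTW : T_LTW) (hSDX : T_SDX) (hTPA : T_TPA) (hDTA : T_DTA) (hEXT : T_EXT)
    (hPSF : T_PSF) (hPTA : T_PTA) (hPTF : T_PTF) : T_DC := by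
  intro V G a b n P S X hNOH hNOP hE hSX hP0 hP1
  obtain ⟨T0, hT0⟩ := hSDX V G a b n P 0 hE
  obtain ⟨T1, hT1⟩ := hSDX V G a b n P 1 hE
  have ha0 : a 0 ∈ S := hP0 (hE.1.a_mem 0)
  have ha1 : a 1 ∈ S := hP1 (hE.1.a_mem 1)
  have hb0 : b 0 ∈ S := hP0 (hE.1.b_mem 0)
  by_cases hs0 : T0 ⊆ S
  · exact ⟨a, b, n, P, 0, T0, hT0, hs0, fun e => a_not_mem hT0 (e ▸ ha0)⟩
  by_cases hs1 : T1 ⊆ S
  · exact ⟨a, b, n, P, 1, T1, hT1, hs1, fun e => a_not_mem hT1 (e ▸ ha1)⟩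
  exfalso
  obtain ⟨t0, p, R, h0T, h0S, hR, hp, hRS, hRT⟩ := hTPA V G a b n P 0 S T0 hT0 ha0 hs0
  obtain ⟨t1, p1, R1, h1T, h1S, hR1, hp1, hRS1, _⟩ := hTPA V G a b n P 1 S T1 hT1 ha1 hs1
  have n0 : Nb G S t0 := nb_of_ip hR hp h0S hRS
  have n1 : Nb G S t1 := nb_of_ip hR1 hp1 h1S hRS1
  obtain ⟨D0, c0, m0, s0, o0, d0, hd0, g0, hg0, hga, hgb, hdg⟩ :=
    hDTA V G a b n P 0 T0 t0 hT0 h0T fun h => h0S (hP0 h)
  obtain ⟨D1, c1, m1, s1, o1, d1, hd1, g1, hg1, _, _, hdg1⟩ :=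
    hDTA V G a b n P 1 T1 t1 hT1 h1T fun h => h1S (hP1 h)
  obtain ⟨x0, hx0, hx0a⟩ := hSX.att t0 n0
  obtain ⟨x1, hx1, hx1a⟩ := hSX.att t1 n1
  have hXS : ∀ x ∈ X, x ∉ S := fun x hx hs => (hSX.ne x hs x hx).1 rfl
  have hXa : ∀ x ∈ X, ∀ s ∈ S, ¬ G.Adj x s := fun x hx s hs h => (hSX.ne s hs x hx).2 h.symm
  by_cases hP2 : P 2 ⊆ S
  · have hPS : ∀ j, P j ⊆ S := by
      intro j
      fin_cases j
      · exact hP0
      · exact hP1
      · exact hP2
    have hcD : Cn G (D0 ∪ (D1 ∪ X)) :=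
      cn_union c0 (cn_union c1 hSX.cX m1 hx1 hx1a) m0 (Or.inr hx0) hx0a
    refine hLTW V G a b n P _ 0 1 d0 d1 g0 g1 hNOH hNOP hE hcD ?_ ?_ (by decide) (Or.inl hd0)
      hg0 hga hgb hdg (Or.inr (Or.inl hd1)) hg1 hdg1
    · rintro d (hd | hd | hd)
      · exact out hT0 s0 o0 hd
      · exact out hT1 s1 o1 hd
      · rintro ⟨j, hj⟩
        exact hXS d hd (hPS j hj)
    · rintro d (hd | hd | hd) i j g h hg hh hag hah
      · rw [sees hT0 s0 hd hg hag, sees hT0 s0 hd hh hah]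
      · rw [sees hT1 s1 hd hg hag, sees hT1 s1 hd hh hah]
      · exact absurd hag (hXa d hd g (hPS i hg))
  · obtain ⟨r, x, hEx, hrn, hxP, _, hx0', _⟩ :=
      hEXT V G (n 2) (a 2) (b 2) (P 2) S (hE.1.ip 2) hP2
    obtain ⟨s, z, hEz, hsn, hzP, _, hz0', hzB⟩ :=
      hEXT V G (n 2) (b 2) (a 2) (P 2) S (hE.1.ip 2).rev hP2
    -- the two exits are neighbours of `S`
    have nx : Nb G S x := by
      obtain ⟨Q, hQ, _, hxS, hQS⟩ := hEx
      by_cases hr : r = 0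
      · rw [hx0'.2 hr]
        refine ⟨?_, a 0, ha0, hE.1.a_adj (by decide)⟩
        rw [← hx0'.2 hr]
        exact hxS
      · exact nb_of_ip hQ (by omega) hxS hQS
    have nz : Nb G S z := by
      obtain ⟨Q, hQ, _, hzS, hQS⟩ := hEz
      by_cases hr : s = 0
      · rw [hz0'.2 hr]
        refine ⟨?_, b 0, hb0, hE.1.b_adj (by decide)⟩
        rw [← hz0'.2 hr]
        exact hzS
      · exact nb_of_ip hQ (by omega) hzS hQS
    have claim : ∀ v ∈ P 2, v = x ∨ v = z ∨ v ∈ S := by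
      by_cases hza : z = a 2
      · intro v hv
        rcases (hzB hza).2 v hv with e | e
        · exact Or.inr (Or.inl (e.trans hza.symm))
        · exact Or.inr (Or.inr e)
      · have q1 := hPTA V G a b n P 0 2 S X T0 R p r t0 x hSX hT0 (by decide) ha0 h0T h0S hR hp
          hRS hRT hEx
        have q2 := hPTF V G a b n P 0 2 1 S X T0 R p s t0 z hSX hT0 (by decide) (by decide)
          (by decide) ha0 hP1 h0T h0S hR hp hRS hRT hEz hza
        by_contra hc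
        have q3 := hPSF V G a b n P 2 0 S X r s x z hE hSX (by decide) hP0 hEx hEz
          (fun h => hc h.2.2)
        rw [Nat.odd_iff] at q1
        rw [Nat.even_iff] at q2 q3
        omega
    have hXn : ∀ w, Nb G S w → w ∉ X := by
      rintro w ⟨_, s', hs', hws⟩ hwX
      exact hXa w hwX s' hs' hws
    obtain ⟨y, hyX, hxy⟩ := hSX.att x nx
    have hcD : Cn G (D0 ∪ X) := cn_union c0 hSX.cX m0 hx0 hx0a
    have h2 : ∀ (d : V), d ∈ X → ∀ (j : Fin 3) (g : V), g ∈ P j → G.Adj d g → j = 2 := by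
      intro d hd j g hg hdg'
      by_contra hj
      have : g ∈ S := by
        fin_cases j
        · exact hP0 hg
        · exact hP1 hg
        · exact absurd rfl hj
      exact hXa d hd g this hdg'
    refine hLTW V G a b n P _ 0 2 d0 y g0 x hNOH hNOP hE hcD ?_ ?_ (by decide) (Or.inl hd0)
      hg0 hga hgb hdg (Or.inr hyX) hxP hxy.symm
    · rintro d (hd | hd)
      · exact out hT0 s0 o0 hd
      · rintro ⟨j, hj⟩
        fin_cases j
        · exact hXS d hd (hP0 hj)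
        · exact hXS d hd (hP1 hj)
        · rcases claim d hj with e | e | e
          · exact hXn x nx (e ▸ hd)
          · exact hXn z nz (e ▸ hd)
          · exact hXS d hd e
    · rintro d (hd | hd) i j g h hg hh hag hah
      · rw [sees hT0 s0 hd hg hag, sees hT0 s0 hd hh hah]
      · rw [h2 d hd i g hg hag, h2 d hd j h hh hah]

end Pool.Agent.H74.NCK
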